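import Pool.Agent.Lib.CCC.Fin

set_option autoImplicit false

namespace Pool.Agent.Results.MP_16fe43_al.CubeComplexes

open Pool.Agent.Lib.BHS16 (TorsionFree LowKVanishing)
open Pool.Agent.Lib.CCC (VWall)

/-- Let `G` be a torsion-free group all of whose finitely generated subgroups have a subgroup of finite index which acts
on a space with walls of finite dimension (a finite-dimensional CAT(0) cube complex) such that all elements different
from `1` have unbounded orbits (no fixed points). Then the low `K`-groups of `G × ℤ^k` vanish. -/
theorem result {G : Type} [Group G] (tf : TorsionFree G) (h : ∀ H : Subgroup G, H.FG → VWall H)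
    (k : ℕ) : LowKVanishing (G × (Fin k → Multiplicative ℤ)) :=
  Pool.Agent.Lib.CCC.low_of_walls tf h k

end Pool.Agent.Results.MP_16fe43_al.CubeComplexes
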