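import Pool.Agent.Lib.THZ.Main

set_option autoImplicit false

namespace Pool.Agent.Results.MP_16fe43_al.TreeHierarchies

open Pool.Agent.Lib.BHS16 (TorsionFree LowKVanishing)
open Pool.Agent.Lib.THZ (Cls)

/-- The groups `G × ℤ^k` have trivial low `K`-groups for all torsion-free groups `G` of the class `Cls`. -/
theorem result {G : Type} [Group G] (tf : TorsionFree G) (h : Cls G) (k : ℕ) :
    LowKVanishing (G × (Fin k → Multiplicative ℤ)) :=
  Pool.Agent.Lib.THZ.cls_low tf h k

end Pool.Agent.Results.MP_16fe43_al.TreeHierarchies
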