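import Pool.Agent.Lib.CX2.ClTree

/-!
# Low K-theory of groups acting on contractible complexes of dimension two (MP_16fe43_al, Q1)

The definitions of the classes `ClE` and `ClC`, of `StReg`, `StNoeth`, `PolyZ`, `TreeAct` are in
`Pool.Agent.Lib.CX2.ClsDefs`, the definitions of complexes with group action (`Cx.Act`, `Cx.Contr`) in
`Pool.Agent.Lib.CX2.Cx`, the definition of `GeomDimLETwo` in `Pool.Agent.Lib.GD2.Asph`, the definitions of the
`K`-groups in `Pool.Agent.Lib.MP_16fe43_al.Statement`.
-/

set_option autoImplicit false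

namespace Pool.Agent.Results.MP_16fe43_al.TwoComplexes

open Pool.Agent.Lib.CX2.Cl Pool.Agent.Lib.BHS16
open Pool.Agent.Lib.GD2 (GeomDimLETwo)
open MulAction (stabilizer)

/-- The low-dimensional `K`-theory of the group rings of groups acting on contractible complexes of dimension two.

For all `G` in the class `C` and all subgroups `L` of `G × ℤ^k`, `k ≥ 0`, `K̃₀(ℤ[L]) = 0` and `K_n(ℤ[L]) = 0`,
`n ≤ -1`.

All `G` in the class `E` are in the class `C`; moreover, if a subgroup `L` of `G × ℤ^k` acts on a tree, `K₁(ℤ[L])`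
is generated by the images of the groups `K₁(ℤ[L_v])` of the stabilizers of the vertices and by the trivial units
(no `Nil`-terms), and if `Wh(G) = 0`, all of `Wh`, `K̃₀`, `K_n`, `n ≤ -1`, vanish for `G × ℤ^k`, `k ≥ 0`.

The class `E` contains all groups `G` with a poly-`ℤ` normal subgroup `N` such that `G ⧸ N` has geometric dimension
at most two; in particular (`N = 1`) all groups of geometric dimension at most two. -/
theorem result :
    (∀ (G : Type) [Group G], ClC G →
      ∀ (k : ℕ) (L : Subgroup (G × (Fin k → Multiplicative ℤ))), LowerVanishing L) ∧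
    (∀ (G : Type) [Group G], ClE G → ClC G ∧
      (∀ (k : ℕ) (L : Subgroup (G × (Fin k → Multiplicative ℤ))), TreeGenerated L) ∧
      (Subsingleton (Wh G) → ∀ k : ℕ, LowKVanishing (G × (Fin k → Multiplicative ℤ)))) ∧
    ∀ (G : Type) [Group G] (N : Subgroup G) [N.Normal],
      PolyZ N → GeomDimLETwo (G ⧸ N) → ClE G :=
  ⟨fun _ _ h k L => Pool.Agent.Lib.CX2.clc_van h k L,
    fun _ _ h => ⟨Pool.Agent.Lib.CX2.clc_of_cle h,
      fun k L _ _ _ hT => Pool.Agent.Lib.CX2.cle_tree h k L hT,
      fun hW k => Pool.Agent.Lib.CX2.cle_low h hW k⟩,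
    fun _ _ N _ h hQ => Pool.Agent.Lib.CX2.clE_normal N hQ h⟩

end Pool.Agent.Results.MP_16fe43_al.TwoComplexes
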