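import Pool.Agent.Lib.WPC.Top

/-!
# Low K-theory of two-dimensional hierarchies of groups (MP_16fe43_al, Q1)

The definitions of the class `Hier`, of `Strong`, `Crossed`, `FinGl` and `VPolyZ` are in `Pool.Agent.Lib.WPC.Defs`, the
definitions of complexes with group action (`Cx.Act`, `Cx.Contr`) in `Pool.Agent.Lib.CX2.Cx`, the definitions of `PolyZ`
and `TreeAct` in `Pool.Agent.Lib.CX2.ClsDefs`, the definition of `GeomDimLETwo` in `Pool.Agent.Lib.GD2.Asph`, the
definitions of the `K`-groups in `Pool.Agent.Lib.MP_16fe43_al.Statement`.
-/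

set_option autoImplicit false

namespace Pool.Agent.Results.MP_16fe43_al.TwoDimHierarchies

open MulAction (stabilizer)
open Pool.Agent.Lib.WPC (Hier VPolyZ Strong)
open Pool.Agent.Lib.CX2.Cl (PolyZ TreeAct)
open Pool.Agent.Lib.GD2 (GeomDimLETwo)
open Pool.Agent.Lib.BHS16 (LowKVanishing)

/-- For all groups `G` in the class `Hier` and all subgroups `L` of the groups `G × ℤ^k`, `k ≥ 0`: `L` is strong (in
particular torsion-free), and `Wh(L)`, `K̃₀(ℤL)` and `K_n(ℤL)`, `n ≤ -1`, vanish.

The class contains all groups of geometric dimension at most two, all groups with a homomorphism to a group in the class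
with a poly-`ℤ` kernel (in particular the subgroups of the groups in the class), and all groups which act on a tree
without inversions with virtually poly-`ℤ` stabilizers of the edges and stabilizers of the vertices in the class. -/
theorem result :
    (∀ (G : Type) [Group G], Hier G → ∀ (k : ℕ)
      (L : Subgroup (G × (Fin k → Multiplicative ℤ))), Strong L ∧ LowKVanishing L) ∧
    (∀ (G : Type) [Group G], GeomDimLETwo G → Hier G) ∧
    (∀ (G H : Type) [Group G] [Group H] (φ : H →* G), Hier G → PolyZ φ.ker → Hier H) ∧
    ∀ (G V : Type) [Group G] [MulAction G V] (T : SimpleGraph V), TreeAct G T →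
      (∀ v : V, Hier (stabilizer G v)) →
      (∀ u v : V, T.Adj u v → VPolyZ (stabilizer G u ⊓ stabilizer G v : Subgroup G)) → Hier G :=
  Pool.Agent.Lib.WPC.top

end Pool.Agent.Results.MP_16fe43_al.TwoDimHierarchies
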